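import Pool.Agent.J6H29.ST.StmZ

/-!
# ST-DET: determinants
-/

set_option autoImplicit false
set_option maxHeartbeats 400000

namespace Pool.Agent.J6H82.ST

open NumberField Filter Topology IsDedekindDomain Pool.Agent.W401.Cheb Pool.Agent.R401.Sup
open Pool.Agent.W569.FM Pool.Agent.R401.Img Pool.Agent.R401.Eng Pool.Agent.R401.Sup2
open Pool.Agent.R401.Sup3 Pool.Agent.R401.Tr1 Pool.Agent.R401.Tr3 Module Pool.Agent.R401.Tr5
open Polynomial

theorem norm_prod_sq (Q : ℝ) (s : Multiset ℂ) (hs : ∀ z ∈ s, ‖z‖ ^ 2 = Q) :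
    ‖s.prod‖ ^ 2 = Q ^ s.card := by
  induction s using Multiset.induction_on with
  | empty => simp
  | cons a s ih =>
    rw [Multiset.prod_cons, norm_mul, mul_pow, hs a (Multiset.mem_cons_self a s),
      ih fun z hz => hs z (Multiset.mem_cons_of_mem hz), Multiset.card_cons, pow_succ, mul_comm]

/-- the constant coefficient of a pure polynomial with rational coefficients -/
theorem sq_coeff {h : ℚ[X]} (hm : h.Monic) (Q : ℚ)
    (hz : ∀ z : ℂ, (h.map (Rat.castHom ℂ)).IsRoot z → ‖z‖ ^ 2 = (Q : ℝ)) :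
    (h.coeff 0) ^ 2 = Q ^ h.natDegree := by
  have hpm : (h.map (Rat.castHom ℂ)).Monic := hm.map _
  have hs : (h.map (Rat.castHom ℂ)).Splits := IsAlgClosed.splits _
  have h1 := hs.coeff_zero_eq_prod_roots_of_monic hpm
  have h2 : ‖(h.map (Rat.castHom ℂ)).coeff 0‖ ^ 2 = (Q : ℝ) ^ h.natDegree := by
    rw [h1, norm_mul, norm_pow, norm_neg, norm_one, one_pow, one_mul,
      norm_prod_sq (Q : ℝ) _ fun z hz' => hz z (Polynomial.isRoot_of_mem_roots hz'),
      ← hs.natDegree_eq_card_roots, hm.natDegree_map]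
  rw [Polynomial.coeff_map, Rat.coe_castHom, Complex.norm_ratCast, sq_abs] at h2
  exact_mod_cast h2

/-- the determinant -/
theorem det_sq {L : Type} [Field L] [CharZero L] {n : ℕ} (A : Matrix (Fin n) (Fin n) L) (h : ℚ[X])
    (hA : A.charpoly = h.map (Rat.castHom L)) (q : ℕ) (w : ℤ)
    (hz : ∀ z : ℂ, (h.map (Rat.castHom ℂ)).IsRoot z → ‖z‖ ^ 2 = (q : ℝ) ^ w) :
    A.det ^ 2 = (q : L) ^ ((n : ℤ) * w) := by
  have hinj : Function.Injective (Rat.castHom L) := (Rat.castHom L).injective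
  have hm : h.Monic := by
    have h1 := A.charpoly_monic
    rw [hA] at h1
    exact Polynomial.monic_of_injective hinj h1
  have hd : h.natDegree = n := by
    have h1 := A.charpoly_natDegree_eq_dim
    rw [hA, hm.natDegree_map, Fintype.card_fin] at h1
    exact h1
  have h1 := sq_coeff hm ((q : ℚ) ^ w) fun z hz' => by
    rw [hz z hz']
    push_cast
    rfl
  rw [hd] at h1
  rw [A.det_eq_sign_charpoly_coeff, hA, Polynomial.coeff_map, Rat.coe_castHom, mul_pow, ← pow_mul,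
    mul_comm _ 2, pow_mul, neg_one_sq, one_pow, one_mul, ← Rat.cast_pow, h1, mul_comm (n : ℤ) w,
    zpow_mul, zpow_natCast]
  push_cast
  rfl

/-- Frobenius elements in nonempty open sets -/
theorem exists_frob_open {K : Type} [Field K] [NumberField K] {O : Set (GK K)} (hO : IsOpen O)
    {x : GK K} (hx : x ∈ O) {S : Set (HeightOneSpectrum (𝓞 K))} (hS : S.Finite) :
    ∃ v, v ∉ S ∧ ∃ g, IsFrob v g ∧ g ∈ O := by
  have h1 : (fun u => x * u) ⁻¹' O ∈ 𝓝 (1 : GK K) := by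
    apply (hO.preimage (continuous_const.mul continuous_id)).mem_nhds
    change x * 1 ∈ O
    rwa [mul_one]
  obtain ⟨s, hs1, hs2, hs3⟩ := mem_nhds_iff.1 h1
  obtain ⟨U, hU⟩ := ProfiniteGrp.exist_openNormalSubgroup_sub_open_nhds_of_one hs2 hs3
  have hUn : (U : Subgroup (GK K)).Normal := U.isNormal'
  obtain ⟨v, hv, γ, hγ, hgγ⟩ :=
    Pool.Agent.R401.Tr2.exists_frob (U : Subgroup (GK K)) U.isOpen' x hS
  refine ⟨v, hv, γ, hγ, ?_⟩
  have h4 : x * (x⁻¹ * γ) ∈ O := hs1 (hU hgγ)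
  rwa [mul_inv_cancel_left] at h4

/-- **ST-DET.** -/
theorem main : Pool.Agent.J6H29.ST.S_Det := by
  intro K _ _ ℓ _ n ρ hρ w S hS hfr g
  have hcl : IsClosed {g : GK K | (mt ρ g⁻¹).det ^ 2 = cyc K ℓ ℚ_[ℓ] g ^ ((n : ℤ) * w)} := by
    refine isClosed_eq ?_ ((continuous_cyc K ℓ ℚ_[ℓ]).zpow₀ _ fun x => Or.inl (c_ne _ x))
    exact (((continuous_mt ρ hρ).comp continuous_inv).matrix_det).pow 2
  by_contra hcon
  obtain ⟨v, hv, γ, hγ, hγO⟩ := exists_frob_open hcl.isOpen_compl (x := g) hcon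
    (hS.union (Pool.Agent.W352.ChAbs.over_le (K := K) ℓ (Fact.out : ℓ.Prime)).1)
  rw [Set.mem_union, not_or] at hv
  apply hγO
  obtain ⟨h, hh, hz⟩ := hfr v hv.1 γ hγ
  change (mt ρ γ⁻¹).det ^ 2 = cyc K ℓ ℚ_[ℓ] γ ^ ((n : ℤ) * w)
  rw [cyc_frob ℓ ℚ_[ℓ] hv.2 hγ]
  exact det_sq _ h hh _ w hz

end Pool.Agent.J6H82.ST
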